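import Mathlib
import Pool.Agent.H206.OutProd

/-!
# MP_0c5939_al : `Out (A × B)` is residually finite when `A × 1` has finitely many images
-/

namespace Pool.Agent.Results.MP_0c5939_al.FiniteOrbit

open MP0c5939al

open scoped Pointwise

universe u

theorem result {A B : Type u} [Group A] [Group B] (hA : Group.FG A) (hB : Group.FG B)
    (rfA : RF A) (rfB : RF B) (oA : RF (Out A)) (oB : RF (Out B))
    (horb : (MulAction.orbit (MulAut (A × B))
      (Subgroup.prod ⊤ ⊥ : Subgroup (A × B))).Finite) :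
    RF (Out (A × B)) := by
  have hS := S_finiteIndex horb
  apply rf_out
  intro θ hθ
  obtain ⟨α, δ, hp, -, -⟩ := resid_prod hA hB rfA rfB hθ
  have hpi : ∀ a b, θ⁻¹ (a, b) = (α⁻¹ a, δ⁻¹ b) := by
    intro a b
    have e : θ (α⁻¹ a, δ⁻¹ b) = (a, b) := by
      rw [hp, MulAut.apply_inv_self, MulAut.apply_inv_self]
    rw [← e, MulAut.inv_apply_self]
  have hθS : θ ∈ S A B := by
    constructor
    · intro a
      rw [hp]
      simp
    · intro a
      rw [hpi]
      simp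
  have hαI : rA A B ⟨θ, hθS⟩ ∈ Inn A := by
    refine resid_inner hS oA (rA A B) ?_ hθ hθS
    rintro ⟨φ, hφS⟩ ⟨c, rfl⟩
    refine ⟨c.1, ?_⟩
    ext a
    rfl
  have hδI : rB A B ⟨θ, hθS⟩ ∈ Inn B := by
    refine resid_inner hS oB (rB A B) ?_ hθ hθS
    rintro ⟨φ, hφS⟩ ⟨c, rfl⟩
    refine ⟨c.2, ?_⟩
    ext b
    rfl
  have e1 : rA A B ⟨θ, hθS⟩ = α := by
    ext a
    change (θ (a, 1)).1 = α a
    rw [hp]
  have e2 : rB A B ⟨θ, hθS⟩ = δ := by
    ext b
    change (θ (1, b)).2 = δ b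
    rw [hp]
  rw [e1] at hαI
  rw [e2] at hδI
  exact inn_of_prod hp hαI hδI

end Pool.Agent.Results.MP_0c5939_al.FiniteOrbit
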