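import Mathlib
import Pool.Agent.H206.OutProd

/-!
# MP_0c5939_al : the finite residual of `Out (A × B)`

For finitely generated residually finite groups `A`, `B`, the finite residual of `Out (A × B)`
consists of classes of product automorphisms `α × δ` with `α`, `δ` inner modulo every normal
subgroup of finite index.
-/

namespace Pool.Agent.Results.MP_0c5939_al.FiniteResidual

open MP0c5939al

universe u

theorem result {A B : Type u} [Group A] [Group B] (hA : Group.FG A) (hB : Group.FG B)
    (rfA : RF A) (rfB : RF B) (θ : MulAut (A × B)) (hθ : Resid θ) :
    ∃ (α : MulAut A) (δ : MulAut B), (∀ a b, θ (a, b) = (α a, δ b)) ∧ ProInner α ∧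
      ProInner δ :=
  resid_prod hA hB rfA rfB hθ

end Pool.Agent.Results.MP_0c5939_al.FiniteResidual
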